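import Pool.Agent.Lib.BCF.Chk

/-!
# The family of explicit members at `l = 459 / 1250`: data, block 0
-/

set_option autoImplicit false
set_option maxRecDepth 20000

namespace Pool.Agent.BCF

/-- The directions. -/
def es0 : List (ℤ × ℤ) := [(1048576, 0), (634924, 834495), (-279668, 1010592), (-973609, 389354),
  (-1048576, 0)]

/-- The caps. -/
def ks0 : List ℕ := [114386936962, 114386774874, 114387065657, 19831218111]

/-- The bounds at `a = 0 / 1024`. -/
def bs0_0 : List ℕ := [722088086187, 722088029655, 722088029364, 722088058695, 722088086187]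

theorem r0_0 : rowOK 0 es0 [[0, 1073741824, 0, 394277998, 0, 144778881, 0, 53162806, 0, 19521383,
  0, 7168252, 0, 2632182, 0, 966538, 0, 354913, 0, 130324, 0, 47855, 0, 17573, 0, 6453, 0, 2370],
  [0, 1073741824, 0, 394277776, 0, 144778718, 0, 53162716, 0, 19521339, 0, 7168232, 0, 2632174, 0,
  966534, 0, 354911, 0, 130324, 0, 47855, 0, 17573, 0, 6453, 0, 2370], [0, 1073741824, 0,
  394277775, 0, 144778717, 0, 53162715, 0, 19521338, 0, 7168232, 0, 2632173, 0, 966534, 0, 354911,
  0, 130324, 0, 47855, 0, 17573, 0, 6453, 0, 2370], [0, 1073741824, 0, 394277890, 0, 144778802, 0,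
  53162762, 0, 19521361, 0, 7168242, 0, 2632178, 0, 966536, 0, 354912, 0, 130324, 0, 47855, 0,
  17573, 0, 6453, 0, 2370], [0, 1073741824, 0, 394277998, 0, 144778881, 0, 53162806, 0, 19521383,
  0, 7168252, 0, 2632182, 0, 966538, 0, 354913, 0, 130324, 0, 47855, 0, 17573, 0, 6453, 0, 2370]]
  bs0_0 = true := by decide +kernel

/-- The bounds at `a = 384 / 1024`. -/
def bs0_1 : List ℕ := [1164129634271, 1179818695418, 1183784266283, 1141422002688, 1123680231900]

theorem r0_1 : rowOK 384 es0 [[402653184, 867301537, 592519747, 14688250, 225103917, 110017253,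
  26252313, 53857896, 17973095, 10561815, 12014763, 2281671, 3242009, 2500008, 91289, 871200,
  480185, 73714, 214117, 82711, 36219, 48941, 11793, 11925, 10445, 976, 3335, 2069], [402653184,
  890268324, 538446605, 105713517, 242677592, 93422697, 65098694, 59785027, 22478180, 22794935,
  14404666, 7751035, 6724103, 3767186, 2595028, 1871166, 1099131, 801361, 522970, 334925, 236194,
  150630, 101396, 68576, 44419, 30190, 19970, 13197], [402653184, 939056471, 378199342, 254566615,
  231309685, 90363700, 108048538, 56159349, 47083252, 32588327, 21979654, 16880724, 11179017,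
  8362689, 5801159, 4150795, 2970338, 2090624, 1502639, 1061022, 757814, 538480, 382808, 272714,
  193717, 137959, 98080, 69786], [402653184, 974445719, 144411700, 366937222, 141757109,
  157939962, 91911914, 76238537, 52685992, 39432500, 28904409, 21023221, 15617007, 11322683,
  8401509, 6111913, 4517608, 3298616, 2430484, 1779173, 1308374, 959148, 704606, 516914, 379544,
  278534, 204469, 150073], [402653184, 978192224, 84270766, 379189638, 120925926, 167934157,
  84254776, 81659081, 50316054, 41925214, 28424909, 22140170, 15691489, 11853461, 8574741,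
  6387377, 4664370, 3452300, 2531988, 1868525, 1373147, 1011971, 744360, 548233, 403425, 297044,
  218626, 160955]] bs0_1 = true := by decide +kernel

end Pool.Agent.BCF
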