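import Pool.Agent.Lib.BCF.Strip
import Pool.Agent.Lib.BCF.D0
import Pool.Agent.Lib.BCF.D1
import Pool.Agent.Lib.BCF.D2
import Pool.Agent.Lib.BCF.D3
import Pool.Agent.Lib.BCF.D4
import Pool.Agent.Lib.BCF.D5
import Pool.Agent.Lib.BCF.D6
import Pool.Agent.Lib.BCF.D7
import Pool.Agent.Lib.BCF.D8
import Pool.Agent.Lib.BCF.D9

/-!
# The family of explicit members at `l = 459 / 1250`: all blocks
-/

set_option autoImplicit false
set_option maxRecDepth 20000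

namespace Pool.Agent.BCF

theorem blk0 : ∀ a : ℝ, ((0 : ℕ) : ℝ) / 1024 ≤ a → a ≤ ((384 : ℕ) : ℝ) / 1024 →
    ∀ e : ℂ, ‖e‖ = 1 → 0 ≤ e.im → Good a e :=
block_sound (es := es0) (ks := ks0) (by decide +kernel) (by decide +kernel) (As := [384]) (Qs :=
    [1518788129]) (rows := [bs0_0, bs0_1]) (by decide +kernel) (.cons (rowOK_sound r0_0) (.cons
    (rowOK_sound r0_1) (List.Forall₂.nil))) rfl (by simp)

theorem blk1 : ∀ a : ℝ, ((384 : ℕ) : ℝ) / 1024 ≤ a → a ≤ ((592 : ℕ) : ℝ) / 1024 →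
    ∀ e : ℂ, ‖e‖ = 1 → 0 ≤ e.im → Good a e :=
block_sound (es := es1) (ks := ks1) (by decide +kernel) (by decide +kernel) (As := [592]) (Qs :=
    [1723830728]) (rows := [bs1_0, bs1_1]) (by decide +kernel) (.cons (rowOK_sound r1_0) (.cons
    (rowOK_sound r1_1) (List.Forall₂.nil))) rfl (by simp)

theorem blk2 : ∀ a : ℝ, ((592 : ℕ) : ℝ) / 1024 ≤ a → a ≤ ((736 : ℕ) : ℝ) / 1024 →
    ∀ e : ℂ, ‖e‖ = 1 → 0 ≤ e.im → Good a e :=
block_sound (es := es2) (ks := ks2) (by decide +kernel) (by decide +kernel) (As := [664, 736]) (Qs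
    := [1829351126, 1967418447]) (rows := [bs2_0, bs2_1, bs2_2]) (by decide +kernel) (.cons
    (rowOK_sound r2_0) (.cons (rowOK_sound r2_1) (.cons (rowOK_sound r2_2) (List.Forall₂.nil)))) rfl
    (by simp)

theorem blk3 : ∀ a : ℝ, ((736 : ℕ) : ℝ) / 1024 ≤ a → a ≤ ((804 : ℕ) : ℝ) / 1024 →
    ∀ e : ℂ, ‖e‖ = 1 → 0 ≤ e.im → Good a e :=
block_sound (es := es3) (ks := ks3) (by decide +kernel) (by decide +kernel) (As := [770, 804]) (Qs
    := [2049916178, 2148972809]) (rows := [bs3_0, bs3_1, bs3_2]) (by decide +kernel) (.cons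
    (rowOK_sound r3_0) (.cons (rowOK_sound r3_1) (.cons (rowOK_sound r3_2) (List.Forall₂.nil)))) rfl
    (by simp)

theorem blk4 : ∀ a : ℝ, ((804 : ℕ) : ℝ) / 1024 ≤ a → a ≤ ((844 : ℕ) : ℝ) / 1024 →
    ∀ e : ℂ, ‖e‖ = 1 → 0 ≤ e.im → Good a e :=
block_sound (es := es4) (ks := ks4) (by decide +kernel) (by decide +kernel) (As := [817, 831,
    844]) (Qs := [2192580134, 2243985095, 2296581520]) (rows := [bs4_0, bs4_1, bs4_2, bs4_3]) (by
    decide +kernel) (.cons (rowOK_sound r4_0) (.cons (rowOK_sound r4_1) (.cons (rowOK_sound r4_2)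
    (.cons (rowOK_sound r4_3) (List.Forall₂.nil))))) rfl (by simp)

theorem blk5 : ∀ a : ℝ, ((844 : ℕ) : ℝ) / 1024 ≤ a → a ≤ ((856 : ℕ) : ℝ) / 1024 →
    ∀ e : ℂ, ‖e‖ = 1 → 0 ≤ e.im → Good a e :=
block_sound (es := es5) (ks := ks5) (by decide +kernel) (by decide +kernel) (As := [850, 856]) (Qs
    := [2322678704, 2350065707]) (rows := [bs5_0, bs5_1, bs5_2]) (by decide +kernel) (.cons
    (rowOK_sound r5_0) (.cons (rowOK_sound r5_1) (.cons (rowOK_sound r5_2) (List.Forall₂.nil)))) rfl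
    (by simp)

theorem blk6 : ∀ a : ℝ, ((856 : ℕ) : ℝ) / 1024 ≤ a → a ≤ ((880 : ℕ) : ℝ) / 1024 →
    ∀ e : ℂ, ‖e‖ = 1 → 0 ≤ e.im → Good a e :=
block_sound (es := es6) (ks := ks6) (by decide +kernel) (by decide +kernel) (As := [859, 862, 865,
    868, 871, 874, 877, 880]) (Qs := [2364278783, 2378859226, 2393824059, 2409191442, 2424980767,
    2441212770, 2457909656, 2475095231]) (rows := [bs6_0, bs6_1, bs6_2, bs6_3, bs6_4, bs6_5, bs6_6,
    bs6_7, bs6_8]) (by decide +kernel) (.cons (rowOK_sound r6_0) (.cons (rowOK_sound r6_1) (.cons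
    (rowOK_sound r6_2) (.cons (rowOK_sound r6_3) (.cons (rowOK_sound r6_4) (.cons (rowOK_sound r6_5)
    (.cons (rowOK_sound r6_6) (.cons (rowOK_sound r6_7) (.cons (rowOK_sound r6_8)
    (List.Forall₂.nil)))))))))) rfl (by simp)

theorem blk7 : ∀ a : ℝ, ((880 : ℕ) : ℝ) / 1024 ≤ a → a ≤ ((896 : ℕ) : ℝ) / 1024 →
    ∀ e : ℂ, ‖e‖ = 1 → 0 ≤ e.im → Good a e :=
block_sound (es := es7) (ks := ks7) (by decide +kernel) (by decide +kernel) (As := [888, 896]) (Qs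
    := [2523513161, 2576152465]) (rows := [bs7_0, bs7_1, bs7_2]) (by decide +kernel) (.cons
    (rowOK_sound r7_0) (.cons (rowOK_sound r7_1) (.cons (rowOK_sound r7_2) (List.Forall₂.nil)))) rfl
    (by simp)

theorem blk8 : ∀ a : ℝ, ((896 : ℕ) : ℝ) / 1024 ≤ a → a ≤ ((936 : ℕ) : ℝ) / 1024 →
    ∀ e : ℂ, ‖e‖ = 1 → 0 ≤ e.im → Good a e :=
block_sound (es := es8) (ks := ks8) (by decide +kernel) (by decide +kernel) (As := [909, 923,
    936]) (Qs := [2672525838, 2795478166, 2933895612]) (rows := [bs8_0, bs8_1, bs8_2, bs8_3]) (by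
    decide +kernel) (.cons (rowOK_sound r8_0) (.cons (rowOK_sound r8_1) (.cons (rowOK_sound r8_2)
    (.cons (rowOK_sound r8_3) (List.Forall₂.nil))))) rfl (by simp)

theorem blk9 : ∀ a : ℝ, ((936 : ℕ) : ℝ) / 1024 ≤ a → a ≤ ((984 : ℕ) : ℝ) / 1024 →
    ∀ e : ℂ, ‖e‖ = 1 → 0 ≤ e.im → Good a e :=
block_sound (es := es9) (ks := ks9) (by decide +kernel) (by decide +kernel) (As := [960, 984]) (Qs
    := [3288675261, 3917887433]) (rows := [bs9_0, bs9_1, bs9_2]) (by decide +kernel) (.cons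
    (rowOK_sound r9_0) (.cons (rowOK_sound r9_1) (.cons (rowOK_sound r9_2) (List.Forall₂.nil)))) rfl
    (by simp)

end Pool.Agent.BCF
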