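import Pool.Agent.Lib.BCF.Sound

/-!
# The family of explicit members at `l = 459 / 1250`: cells, strips, blocks
-/

set_option autoImplicit false

open Complex Metric Set
open scoped ComplexConjugate
open Pool.Agent.P187f6b Pool.Agent.P187w Pool.Agent.P187s Pool.Agent.BNR

namespace Pool.Agent.BCF

/-- The bound for `nr L`. -/
noncomputable def F0 : ℝ := 1412871023 / 2 ^ 30

namespace Aux

lemma hl0 : (0 : ℝ) ≤ l0 := by unfold l0; norm_num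
lemma hl1 : l0 < 1 := by unfold l0; norm_num
lemma hr0 : (0 : ℝ) ≤ r0 := by unfold r0; norm_num
lemma hr1 : r0 < 1 := by unfold r0; norm_num
lemma hF0 : (0 : ℝ) ≤ F0 := by unfold F0; norm_num
lemma hF : 1 ≤ F0 ^ 2 * ((1 - l0 ^ 2) * (1 - r0 ^ 2)) := by unfold F0 l0 r0; norm_num
lemma hC1 : (1 + (1 + l0) * r0 * F0) * ((1 + l0) * r0) ≤ 1683946 / 2 ^ 20 := by
  unfold F0 l0 r0; norm_num
lemma hC2 : l0 * (r0 * F0 ^ 2) + 2 * l0 ^ 2 * (r0 ^ 2 * F0 ^ 3) ≤ 598542 / 2 ^ 20 := by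
  unfold F0 l0 r0; norm_num

lemma hQ_of {A2 Q : ℕ} (hA2 : A2 < 1024) (hQ : 1073741824 ≤ Q)
    (h : 390625 * (A2 * A2 * 1351819 + 210681 * 1048576) * 1152921504606846976 ≤
      (Q - 1073741824) * (Q - 1073741824) * (1048576 - A2 * A2) * 784431 * 1351819) :
    1 ≤ (Q : ℝ) / 2 ^ 30 ∧
    r0 ^ 2 * (((A2 : ℝ) / 1024) ^ 2 + l0 ^ 2 / (1 - l0 ^ 2)) ≤
      ((Q : ℝ) / 2 ^ 30 - 1) ^ 2 * ((1 - ((A2 : ℝ) / 1024) ^ 2) * (1 - r0 ^ 2)) := by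
  have hAA : A2 * A2 ≤ 1048576 := by nlinarith
  have hQr : (1073741824 : ℝ) ≤ (Q : ℝ) := by exact_mod_cast hQ
  have h' : ((390625 * (A2 * A2 * 1351819 + 210681 * 1048576) * 1152921504606846976 : ℕ) : ℝ) ≤
      (((Q - 1073741824) * (Q - 1073741824) * (1048576 - A2 * A2) * 784431 * 1351819 : ℕ) : ℝ) := by
    exact_mod_cast h
  rw [Nat.cast_mul, Nat.cast_mul, Nat.cast_mul, Nat.cast_mul, Nat.cast_mul, Nat.cast_mul,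
    Nat.cast_sub hQ, Nat.cast_sub hAA] at h'
  push_cast at h'
  constructor
  · rw [le_div_iff₀ (by positivity)]
    norm_num
    exact hQ
  · have e1 : l0 ^ 2 / (1 - l0 ^ 2) = 210681 / 1351819 := by unfold l0; norm_num
    have e2 : r0 ^ 2 = 390625 / 1175056 := by unfold r0; norm_num
    rw [e1, e2]
    have e3 : ((Q : ℝ) / 2 ^ 30 - 1) ^ 2 * ((1 - ((A2 : ℝ) / 1024) ^ 2) *
        (1 - 390625 / 1175056)) =
        ((Q - 1073741824) * (Q - 1073741824) * (1048576 - A2 * A2) * 784431 * 1351819) /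
          (2 ^ 60 * 1048576 * 1351819 * 1175056) := by
      field_simp
      ring
    have e4 : 390625 / 1175056 * (((A2 : ℝ) / 1024) ^ 2 + 210681 / 1351819) =
        (390625 * (A2 * A2 * 1351819 + 210681 * 1048576) * 1152921504606846976) /
          (2 ^ 60 * 1048576 * 1351819 * 1175056) := by
      field_simp
      ring
    rw [e3, e4]
    exact div_le_div_of_nonneg_right (by linarith) (by positivity)

end Aux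

open Aux

/-- The geometry of a cone. -/
lemma cone_geom {p q : ℂ} (hp : ‖p‖ ≤ 1) (hq : ‖q‖ ≤ 1) {kap : ℝ}
    (h1 : (1 - kap) ^ 2 ≤ ‖p‖ ^ 2 - ‖p - q‖ ^ 2 / 4)
    (h2 : (1 - kap) ^ 2 ≤ ‖q‖ ^ 2 - ‖p - q‖ ^ 2 / 4) {u S : ℝ} (hu0 : 0 ≤ u) (hu1 : u ≤ 1)
    (hS : 1 ≤ S) (hn : ‖(S : ℂ) * ((1 - (u : ℂ)) * p + (u : ℂ) * q)‖ = 1) :
    ‖(S : ℂ) * ((1 - (u : ℂ)) * p + (u : ℂ) * q) - ((1 - (u : ℂ)) * p + (u : ℂ) * q)‖ ≤ kap ∧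
    (1 - u) * ‖p - (S : ℂ) * ((1 - (u : ℂ)) * p + (u : ℂ) * q)‖ ^ 2 +
      u * ‖q - (S : ℂ) * ((1 - (u : ℂ)) * p + (u : ℂ) * q)‖ ^ 2 ≤ 2 * kap := by
  obtain ⟨v, hv⟩ : ∃ v : ℂ, v = (1 - (u : ℂ)) * p + (u : ℂ) * q := ⟨_, rfl⟩
  rw [← hv] at hn ⊢
  have hSv : S * ‖v‖ = 1 := by
    rw [norm_mul, Complex.norm_real, Real.norm_eq_abs, abs_of_nonneg (by linarith)] at hn
    exact hn
  have hv0 : 0 ≤ ‖v‖ := norm_nonneg v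
  have hvsq : ‖v‖ ^ 2 = (1 - u) * ‖p‖ ^ 2 + u * ‖q‖ ^ 2 - u * (1 - u) * ‖p - q‖ ^ 2 := by
    rw [hv, ← normSq_eq_norm_sq, ← normSq_eq_norm_sq, ← normSq_eq_norm_sq, ← normSq_eq_norm_sq]
    simp only [normSq_apply, add_re, add_im, mul_re, mul_im, sub_re, sub_im, ofReal_re, ofReal_im,
      one_re, one_im]
    ring
  have hpq : 0 ≤ ‖p - q‖ ^ 2 := sq_nonneg _
  have huu : u * (1 - u) ≤ 1 / 4 := by nlinarith [sq_nonneg (u - 1 / 2)]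
  have hvk : 1 - kap ≤ ‖v‖ := by
    refine le_of_sq_le_sq ?_ hv0
    have g1 := mul_le_mul_of_nonneg_left h1 (sub_nonneg.2 hu1)
    have g2 := mul_le_mul_of_nonneg_left h2 hu0
    have g3 := mul_le_mul_of_nonneg_right huu hpq
    rw [hvsq]
    nlinarith
  constructor
  · have e : (S : ℂ) * v - v = ((S - 1 : ℝ) : ℂ) * v := by push_cast; ring
    rw [e, norm_mul, Complex.norm_real, Real.norm_eq_abs, abs_of_nonneg (by linarith)]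
    nlinarith
  · have e : (1 - u) * ‖p - (S : ℂ) * v‖ ^ 2 + u * ‖q - (S : ℂ) * v‖ ^ 2 =
        (1 - u) * ‖p‖ ^ 2 + u * ‖q‖ ^ 2 + (S * ‖v‖) ^ 2 - 2 * (S * ‖v‖) * ‖v‖ := by
      have hvv : ‖v‖ ^ 2 = v.re * v.re + v.im * v.im := by
        rw [← normSq_eq_norm_sq, normSq_apply]
      have e1 : (1 - u) * ‖p‖ ^ 2 + u * ‖q‖ ^ 2 + (S * ‖v‖) ^ 2 - 2 * (S * ‖v‖) * ‖v‖ =
          (1 - u) * ‖p‖ ^ 2 + u * ‖q‖ ^ 2 + S ^ 2 * ‖v‖ ^ 2 - 2 * S * ‖v‖ ^ 2 := by ring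
      rw [e1, hvv, ← normSq_eq_norm_sq, ← normSq_eq_norm_sq, ← normSq_eq_norm_sq,
        ← normSq_eq_norm_sq]
      simp only [normSq_apply, sub_re, sub_im, mul_re, mul_im, ofReal_re, ofReal_im]
      have er : v.re = (1 - u) * p.re + u * q.re := by rw [hv]; simp
      have ei : v.im = (1 - u) * p.im + u * q.im := by rw [hv]; simp
      rw [er, ei]
      ring
    rw [e, hSv]
    have hp2 : ‖p‖ ^ 2 ≤ 1 := pow_le_one₀ (norm_nonneg _) hp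
    have hq2 : ‖q‖ ^ 2 ≤ 1 := pow_le_one₀ (norm_nonneg _) hq
    have g1 := mul_le_mul_of_nonneg_left hp2 (sub_nonneg.2 hu1)
    have g2 := mul_le_mul_of_nonneg_left hq2 hu0
    nlinarith

/-- A cell. -/
theorem cell {A1 A2 Q k w : ℕ} (hA : A1 < A2) (hA2 : A2 < 1024) (hQ : 1073741824 ≤ Q)
    (hQc : 390625 * (A2 * A2 * 1351819 + 210681 * 1048576) * 1152921504606846976 ≤
      (Q - 1073741824) * (Q - 1073741824) * (1048576 - A2 * A2) * 784431 * 1351819)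
    (hw : w = (A2 - A1) * (A2 - A1) * 1683946 * (Q * Q)) {p q : ℂ} (hp : ‖p‖ ≤ 1) (hq : ‖q‖ ≤ 1)
    (hk : k ≤ 1099511627776)
    (h1 : (1 - (k : ℝ) / 2 ^ 40) ^ 2 ≤ ‖p‖ ^ 2 - ‖p - q‖ ^ 2 / 4)
    (h2 : (1 - (k : ℝ) / 2 ^ 40) ^ 2 ≤ ‖q‖ ^ 2 - ‖p - q‖ ^ 2 / 4) {b1 b2 b3 b4 : ℕ}
    (hb1 : nr (XF 0 ((A1 : ℝ) / 1024) ((l0 : ℂ) * p) 1) r0 ≤ (b1 : ℝ) / 2 ^ 40)
    (hb2 : nr (XF 0 ((A1 : ℝ) / 1024) ((l0 : ℂ) * q) 1) r0 ≤ (b2 : ℝ) / 2 ^ 40)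
    (hb3 : nr (XF 0 ((A2 : ℝ) / 1024) ((l0 : ℂ) * p) 1) r0 ≤ (b3 : ℝ) / 2 ^ 40)
    (hb4 : nr (XF 0 ((A2 : ℝ) / 1024) ((l0 : ℂ) * q) 1) r0 ≤ (b4 : ℝ) / 2 ^ 40)
    (c1 : cellOK w k b1 = true) (c2 : cellOK w k b2 = true) (c3 : cellOK w k b3 = true)
    (c4 : cellOK w k b4 = true) {a : ℝ} (ha1 : (A1 : ℝ) / 1024 ≤ a) (ha2 : a ≤ (A2 : ℝ) / 1024)
    {u S : ℝ} (hu0 : 0 ≤ u) (hu1 : u ≤ 1) (hS : 1 ≤ S)
    (hn : ‖(S : ℂ) * ((1 - (u : ℂ)) * p + (u : ℂ) * q)‖ = 1) :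
    nr (XF 0 a ((l0 : ℂ) * ((S : ℂ) * ((1 - (u : ℂ)) * p + (u : ℂ) * q))) 1) r0 ≤
      2168 / 1709 := by
  have hA1r : (0 : ℝ) ≤ (A1 : ℝ) / 1024 := by positivity
  have hA2r : (A2 : ℝ) / 1024 < 1 := by
    have : (A2 : ℝ) < 1024 := by exact_mod_cast hA2
    linarith
  have hA12 : (A1 : ℝ) < A2 := by exact_mod_cast hA
  have hkr : (k : ℝ) / 2 ^ 40 ≤ 1 := by
    rw [div_le_one (by positivity)]
    have : (k : ℝ) ≤ ((1099511627776 : ℕ) : ℝ) := by exact_mod_cast hk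
    refine this.trans (by norm_num)
  obtain ⟨g1, g2⟩ := cone_geom hp hq h1 h2 hu0 hu1 hS hn
  obtain ⟨hQ1, hQQ⟩ := hQ_of hA2 hQ hQc
  have hn1 : ‖(1 : ℂ)‖ = 1 := norm_one
  -- the norms of the points
  have nx : ∀ e : ℂ, ‖e‖ ≤ 1 → ‖(l0 : ℂ) * e‖ ≤ l0 := by
    intro e he
    rw [norm_mul, Complex.norm_real, Real.norm_eq_abs, abs_of_nonneg hl0]
    exact mul_le_of_le_one_right hl0 he
  obtain ⟨e, he⟩ : ∃ e : ℂ, e = (S : ℂ) * ((1 - (u : ℂ)) * p + (u : ℂ) * q) := ⟨_, rfl⟩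
  rw [← he] at hn g1 g2 ⊢
  -- interpolation in `a`
  have hd : 0 < (A2 : ℝ) - A1 := by linarith
  obtain ⟨s, hs⟩ : ∃ s : ℝ, s = (1024 * a - A1) / (A2 - A1) := ⟨_, rfl⟩
  have hs0 : 0 ≤ s := by rw [hs]; exact div_nonneg (by linarith) hd.le
  have hs1 : s ≤ 1 := by rw [hs, div_le_one hd]; linarith
  have hsa : a = (1 - s) * ((A1 : ℝ) / 1024) + s * ((A2 : ℝ) / 1024) := by
    have : s * (A2 - A1) = 1024 * a - A1 := by rw [hs, div_mul_cancel₀ _ hd.ne']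
    linarith
  have hI : ∀ y : ℂ, ‖y‖ ≤ l0 → nr (XF 0 a y 1) r0 ≤
      (1 - s) * nr (XF 0 ((A1 : ℝ) / 1024) y 1) r0 + s * nr (XF 0 ((A2 : ℝ) / 1024) y 1) r0 +
        (w : ℝ) / 2 ^ 102 := by
    intro y hy
    have h := IntA2 hy hl1 hA1r (by linarith : (A1 : ℝ) / 1024 ≤ (A2 : ℝ) / 1024) hA2r hs0 hs1 hsa
      hn1 (le_refl (0 : ℝ)) hr0 hr1 hF0 hF hQ1 hQQ (le_refl _)
    refine h.trans ?_
    have e1 : ((A2 : ℝ) / 1024 - (A1 : ℝ) / 1024) ^ 2 / 4 *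
        ((1 + (1 + l0) * r0 * F0) * ((1 + l0) * r0) * ((Q : ℝ) / 2 ^ 30) ^ 2 +
        0 * ((1 + r0) / (1 - r0)) * r0 * (((Q : ℝ) / 2 ^ 30) ^ 2 +
          4 * ((A2 : ℝ) / 1024) * ((1 + l0) * r0) * ((Q : ℝ) / 2 ^ 30) ^ 3 +
          3 * (1 - ((A1 : ℝ) / 1024) ^ 2) * ((1 + l0) * r0) ^ 2 * ((Q : ℝ) / 2 ^ 30) ^ 4)) ≤
        (w : ℝ) / 2 ^ 102 := by
      have e2 : (w : ℝ) = ((A2 : ℝ) - A1) ^ 2 * 1683946 * (Q : ℝ) ^ 2 := by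
        rw [hw]
        push_cast [Nat.cast_sub hA.le]
        ring
      rw [e2]
      have e3 : ((A2 : ℝ) - A1) ^ 2 * 1683946 * (Q : ℝ) ^ 2 / 2 ^ 102 =
          ((A2 : ℝ) - A1) ^ 2 * (Q : ℝ) ^ 2 / 2 ^ 82 * (1683946 / 2 ^ 20) := by ring
      have e4 : ((A2 : ℝ) / 1024 - (A1 : ℝ) / 1024) ^ 2 / 4 *
        ((1 + (1 + l0) * r0 * F0) * ((1 + l0) * r0) * ((Q : ℝ) / 2 ^ 30) ^ 2 +
        0 * ((1 + r0) / (1 - r0)) * r0 * (((Q : ℝ) / 2 ^ 30) ^ 2 +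
          4 * ((A2 : ℝ) / 1024) * ((1 + l0) * r0) * ((Q : ℝ) / 2 ^ 30) ^ 3 +
          3 * (1 - ((A1 : ℝ) / 1024) ^ 2) * ((1 + l0) * r0) ^ 2 * ((Q : ℝ) / 2 ^ 30) ^ 4)) =
          ((A2 : ℝ) - A1) ^ 2 * (Q : ℝ) ^ 2 / 2 ^ 82 *
            ((1 + (1 + l0) * r0 * F0) * ((1 + l0) * r0)) := by ring
      rw [e3, e4]
      exact mul_le_mul_of_nonneg_left hC1 (by positivity)
    linarith
  have hX := intX (x := (l0 : ℂ) * e) (x1 := (l0 : ℂ) * p) (x2 := (l0 : ℂ) * q) (l := l0)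
    (a := a) (a2 := (A2 : ℝ) / 1024) (u := u) (η := l0 * ((k : ℝ) / 2 ^ 40))
    (D := 2 * l0 ^ 2 * ((k : ℝ) / 2 ^ 40)) (t0 := 0) (ζ := 1) (r := r0) (F := F0)
    (Q := (Q : ℝ) / 2 ^ 30) (nV := (1 - a ^ 2) * r0 * ((Q : ℝ) / 2 ^ 30) ^ 2)
    (P := (1 + r0) / (1 - r0)) (nx e hn.le) (nx p hp) (nx q hq) hl1 (hA1r.trans ha1) ha2 hA2r
    hu0 hu1 (by
      have : (l0 : ℂ) * e - ((1 - (u : ℂ)) * ((l0 : ℂ) * p) + (u : ℂ) * ((l0 : ℂ) * q)) =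
          (l0 : ℂ) * (e - ((1 - (u : ℂ)) * p + (u : ℂ) * q)) := by ring
      rw [this, norm_mul, Complex.norm_real, Real.norm_eq_abs, abs_of_nonneg hl0]
      exact mul_le_mul_of_nonneg_left g1 hl0) (by
      have t1 : (l0 : ℂ) * p - (l0 : ℂ) * e = (l0 : ℂ) * (p - e) := by ring
      have t2 : (l0 : ℂ) * q - (l0 : ℂ) * e = (l0 : ℂ) * (q - e) := by ring
      rw [t1, t2, norm_mul, norm_mul, Complex.norm_real, Real.norm_eq_abs, abs_of_nonneg hl0]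
      have t3 := mul_le_mul_of_nonneg_left g2 (sq_nonneg l0)
      calc (1 - u) * (l0 * ‖p - e‖) ^ 2 + u * (l0 * ‖q - e‖) ^ 2 =
          l0 ^ 2 * ((1 - u) * ‖p - e‖ ^ 2 + u * ‖q - e‖ ^ 2) := by ring
        _ ≤ l0 ^ 2 * (2 * ((k : ℝ) / 2 ^ 40)) := t3
        _ = _ := by ring) (le_refl _) hn1 hr0 hr1 hF0 hF hQ1 hQQ (le_refl _) (le_refl _)
  have hE : l0 * ((k : ℝ) / 2 ^ 40) * (r0 * F0 ^ 2 + 2 * 0 * ((1 + r0) / (1 - r0)) *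
      (r0 * F0 * ((1 - a ^ 2) * r0 * ((Q : ℝ) / 2 ^ 30) ^ 2))) +
      2 * l0 ^ 2 * ((k : ℝ) / 2 ^ 40) * (r0 ^ 2 * F0 ^ 3 + 3 * 0 * ((1 + r0) / (1 - r0)) *
      (r0 ^ 2 * F0 ^ 2 * ((1 - a ^ 2) * r0 * ((Q : ℝ) / 2 ^ 30) ^ 2))) ≤
      (k : ℝ) * 598542 / 2 ^ 60 := by
    have t1 := mul_le_mul_of_nonneg_left hC2 (show (0 : ℝ) ≤ (k : ℝ) / 2 ^ 40 by positivity)
    have t2 : l0 * ((k : ℝ) / 2 ^ 40) * (r0 * F0 ^ 2 + 2 * 0 * ((1 + r0) / (1 - r0)) *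
      (r0 * F0 * ((1 - a ^ 2) * r0 * ((Q : ℝ) / 2 ^ 30) ^ 2))) +
      2 * l0 ^ 2 * ((k : ℝ) / 2 ^ 40) * (r0 ^ 2 * F0 ^ 3 + 3 * 0 * ((1 + r0) / (1 - r0)) *
      (r0 ^ 2 * F0 ^ 2 * ((1 - a ^ 2) * r0 * ((Q : ℝ) / 2 ^ 30) ^ 2))) =
      (k : ℝ) / 2 ^ 40 * (l0 * (r0 * F0 ^ 2) + 2 * l0 ^ 2 * (r0 ^ 2 * F0 ^ 3)) := by ring
    rw [t2]
    refine t1.trans (le_of_eq ?_)
    ring
  -- the condition of a corner
  have hc : ∀ b : ℕ, cellOK w k b = true →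
      (b : ℝ) / 2 ^ 40 ≤ 2168 / 1709 - (w : ℝ) / 2 ^ 102 - (k : ℝ) * 598542 / 2 ^ 60 := by
    intro b h
    unfold cellOK at h
    rw [decide_eq_true_eq] at h
    have h3 : ((1709 * (b * 4611686018427387904 + w + k * (598542 * 4398046511104)) : ℕ) : ℝ) ≤
        ((2168 * 5070602400912917605986812821504 : ℕ) : ℝ) := by exact_mod_cast h
    push_cast at h3
    have e1 : (b : ℝ) / 2 ^ 40 + (w : ℝ) / 2 ^ 102 + (k : ℝ) * 598542 / 2 ^ 60 =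
        (1709 * (b * 4611686018427387904 + w + k * (598542 * 4398046511104))) /
          (1709 * 2 ^ 102) := by
      field_simp
      ring
    have e2 : (2168 : ℝ) / 1709 = (2168 * 5070602400912917605986812821504) / (1709 * 2 ^ 102) := by
      norm_num
    have h4 : (b : ℝ) / 2 ^ 40 + (w : ℝ) / 2 ^ 102 + (k : ℝ) * 598542 / 2 ^ 60 ≤ 2168 / 1709 := by
      rw [e1, e2]
      exact div_le_div_of_nonneg_right (by linarith) (by positivity)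
    linarith
  have i1 := hI ((l0 : ℂ) * p) (nx p hp)
  have i2 := hI ((l0 : ℂ) * q) (nx q hq)
  obtain ⟨B, hB⟩ : ∃ B : ℝ, B = 2168 / 1709 - (w : ℝ) / 2 ^ 102 - (k : ℝ) * 598542 / 2 ^ 60 :=
    ⟨_, rfl⟩
  have d1 := hb1.trans (hc b1 c1)
  have d2 := hb2.trans (hc b2 c2)
  have d3 := hb3.trans (hc b3 c3)
  have d4 := hb4.trans (hc b4 c4)
  rw [← hB] at d1 d2 d3 d4
  have j1 : nr (XF 0 a ((l0 : ℂ) * p) 1) r0 ≤ B + (w : ℝ) / 2 ^ 102 := by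
    have t1 := mul_le_mul_of_nonneg_left d1 (sub_nonneg.2 hs1)
    have t2 := mul_le_mul_of_nonneg_left d3 hs0
    linarith
  have j2 : nr (XF 0 a ((l0 : ℂ) * q) 1) r0 ≤ B + (w : ℝ) / 2 ^ 102 := by
    have t1 := mul_le_mul_of_nonneg_left d2 (sub_nonneg.2 hs1)
    have t2 := mul_le_mul_of_nonneg_left d4 hs0
    linarith
  have t1 := mul_le_mul_of_nonneg_left j1 (sub_nonneg.2 hu1)
  have t2 := mul_le_mul_of_nonneg_left j2 hu0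
  linarith

end Pool.Agent.BCF
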