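import Mathlib

/-!
# The family of explicit members at one value of `l`: the integer checker

`l = 459 / 1250`, `r = 625 / 1084`. A point of the grid is a pair `a = A / 1024`, `x = l e`,
`e = (e.1 + e.2 i) / 2 ^ 20`. With `Dx = 1250 * 2 ^ 20`, `X = 459 e` the numbers
`E_n = el_n (1024 Dx) ^ n 1024` are Gaussian integers, `E_(n+2) = P E_(n+1) - Y E_n`,
`P = A (Dx + X)`, `Y = 1024 ^ 2 Dx X`. The data `s_n` satisfy `|el_n| ≤ s_n / 2 ^ 30`.
-/

set_option autoImplicit false

namespace Pool.Agent.BCF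

/-- `(1024 * 1250 * 2 ^ 20) ^ 2` -/
def K2 : ℕ := 1801439850948198400000000

/-- The check of the norms. -/
noncomputable def chkE (Pr Pi Yr Yi : ℤ) (ss : List ℕ) : ℤ → ℤ → ℤ → ℤ → ℕ → Bool :=
  @List.rec ℕ (fun _ => ℤ → ℤ → ℤ → ℤ → ℕ → Bool) (fun _ _ _ _ _ => true)
    (fun s _ ih er ei fr fi den =>
      cond (Nat.ble (Nat.mul (Nat.add (Nat.mul (Int.natAbs er) (Int.natAbs er))
          (Nat.mul (Int.natAbs ei) (Int.natAbs ei))) 1152921504606846976)
          (Nat.mul (Nat.mul s s) den))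
        (ih fr fi
          (Int.sub (Int.sub (Int.mul Pr fr) (Int.mul Pi fi)) (Int.sub (Int.mul Yr er) (Int.mul Yi ei)))
          (Int.sub (Int.add (Int.mul Pr fi) (Int.mul Pi fr)) (Int.add (Int.mul Yr ei) (Int.mul Yi er)))
          (Nat.mul den K2)) false) ss

/-- The sum of the products. -/
noncomputable def dotN (ss : List ℕ) : List ℕ → ℕ :=
  @List.rec ℕ (fun _ => List ℕ → ℕ) (fun _ => 0)
    (fun s _ ih rs => @List.casesOn ℕ (fun _ => ℕ) rs 0
      (fun r rs => Nat.add (Nat.mul s r) (ih rs))) ss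

/-- The radii: `rho_n ≥ r ^ n`, unit `2 ^ (-40)`. -/
def rho : List ℕ := [1099511627776, 633943512325, 365511711442, 210742453553, 121507410951, 70057317200, 40392825877,
  23289221562, 13427826085, 7742058398, 4463825184, 2573699945, 1483913714, 855577557, 493298868,
  284420473, 163987819, 94550173, 54514629, 31431405, 18122351, 10448773, 6024431, 3473496, 2002708, 1154698, 665762, 383858]

/-- The tail, unit `2 ^ (-70)`. -/
def tailN : ℕ := 312696433895961

/-- The check of a point. -/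
noncomputable def ptOK (A : ℕ) (e : ℤ × ℤ) (ss : List ℕ) (b : ℕ) : Bool :=
  (fun (Xr Xi : ℤ) (Af : ℤ) =>
    cond (Nat.ble (Nat.add (Nat.mul (Int.natAbs e.1) (Int.natAbs e.1))
        (Nat.mul (Int.natAbs e.2) (Int.natAbs e.2))) 1099511627776)
    (cond (Nat.ble A 1024) (cond (Nat.beq (List.length ss) 28)
    (cond (chkE (Int.mul Af (Int.add 1310720000 Xr)) (Int.mul Af Xi) (Int.mul 1374389534720000 Xr)
        (Int.mul 1374389534720000 Xi) ss
        Af 0
        (Int.sub (Int.mul (Int.mul Af Af) (Int.add 1310720000 Xr)) 1374389534720000)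
        (Int.mul (Int.mul Af Af) Xi) 1048576)
      (Nat.ble (Nat.add (dotN ss rho) tailN) (Nat.mul b 1073741824)) false) false) false) false)
    (Int.mul 459 e.1) (Int.mul 459 e.2) (Int.ofNat A)

/-- The check of a row: one `a`, all directions. -/
noncomputable def rowOK (A : ℕ) (es : List (ℤ × ℤ)) : List (List ℕ) → List ℕ → Bool :=
  @List.rec (ℤ × ℤ) (fun _ => List (List ℕ) → List ℕ → Bool)
    (fun _ bs => @List.casesOn ℕ (fun _ => Bool) bs true (fun _ _ => false))
    (fun e _ ih sss bs => @List.casesOn (List ℕ) (fun _ => Bool) sss false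
      (fun ss sss => @List.casesOn ℕ (fun _ => Bool) bs false
        (fun b bs => cond (ptOK A e ss b) (ih sss bs) false))) es

/-- The condition on `kap`, unit `2 ^ (-40)`. -/
def capOK : List (ℤ × ℤ) → List ℕ → Bool
  | e1 :: e2 :: es, k :: ks =>
    (decide (k ≤ 1099511627776) &&
    decide ((1099511627776 - (k : ℤ)) * (1099511627776 - (k : ℤ)) +
        274877906944 * ((e1.1 - e2.1) * (e1.1 - e2.1) + (e1.2 - e2.2) * (e1.2 - e2.2)) ≤
      1099511627776 * (e1.1 * e1.1 + e1.2 * e1.2)) &&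
    decide ((1099511627776 - (k : ℤ)) * (1099511627776 - (k : ℤ)) +
        274877906944 * ((e1.1 - e2.1) * (e1.1 - e2.1) + (e1.2 - e2.2) * (e1.2 - e2.2)) ≤
      1099511627776 * (e2.1 * e2.1 + e2.2 * e2.2))) && capOK (e2 :: es) ks
  | [_], [] => true
  | _, _ => false

/-- The condition on a cell. -/
def cellOK (w k b : ℕ) : Bool :=
  decide (1709 * (b * 4611686018427387904 + w + k * (598542 * 4398046511104)) ≤
    2168 * 5070602400912917605986812821504)

/-- The cells of a strip; `w = dA ^ 2 C1 Q ^ 2`. -/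
def stripOK (w : ℕ) : List ℕ → List ℕ → List ℕ → Bool
  | k :: ks, b :: b' :: bs, c :: c' :: cs =>
    cellOK w k b && cellOK w k b' && cellOK w k c && cellOK w k c' &&
      stripOK w ks (b' :: bs) (c' :: cs)
  | [], [_], [_] => true
  | _, _, _ => false

/-- The strips of a block; `Q` unit `2 ^ (-30)`. -/
def stripsOK (ks : List ℕ) : List ℕ → List ℕ → List (List ℕ) → Bool
  | A1 :: A2 :: As, Q :: Qs, r1 :: r2 :: rs =>
    decide (A1 < A2) && decide (A2 < 1024) && decide (1073741824 ≤ Q) &&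
    decide (390625 * (A2 * A2 * 1351819 + 210681 * 1048576) * 1152921504606846976 ≤
      (Q - 1073741824) * (Q - 1073741824) * (1048576 - A2 * A2) * 784431 * 1351819) &&
    stripOK ((A2 - A1) * (A2 - A1) * 1683946 * (Q * Q)) ks r1 r2 && stripsOK ks (A2 :: As) Qs (r2 :: rs)
  | [_], [], [_] => true
  | _, _, _ => false

end Pool.Agent.BCF
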