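import Pool.Agent.Lib.BCF.Blk

/-!
# The family of explicit members at `l = 3672 / 10000`
-/

set_option autoImplicit false

open Complex Metric Set
open scoped ComplexConjugate
open Pool.Agent.P187f6b Pool.Agent.P187w Pool.Agent.P187s Pool.Agent.BNR

namespace Pool.Agent.BCF

/-- All blocks, upper half circle. -/
theorem good_up {a : ℝ} (h0 : 0 ≤ a) (h1 : a ≤ 984 / 1024) {e : ℂ} (he : ‖e‖ = 1)
    (hi : 0 ≤ e.im) : Good a e := by
  rcases le_total a (384 / 1024) with g1 | g1
  · exact blk0 a (by simpa using h0) (by simpa using g1) e he hi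
  rcases le_total a (592 / 1024) with g2 | g2
  · exact blk1 a (by simpa using g1) (by simpa using g2) e he hi
  rcases le_total a (736 / 1024) with g3 | g3
  · exact blk2 a (by simpa using g2) (by simpa using g3) e he hi
  rcases le_total a (804 / 1024) with g4 | g4
  · exact blk3 a (by simpa using g3) (by simpa using g4) e he hi
  rcases le_total a (844 / 1024) with g5 | g5
  · exact blk4 a (by simpa using g4) (by simpa using g5) e he hi
  rcases le_total a (856 / 1024) with g6 | g6
  · exact blk5 a (by simpa using g5) (by simpa using g6) e he hi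
  rcases le_total a (880 / 1024) with g7 | g7
  · exact blk6 a (by simpa using g6) (by simpa using g7) e he hi
  rcases le_total a (896 / 1024) with g8 | g8
  · exact blk7 a (by simpa using g7) (by simpa using g8) e he hi
  rcases le_total a (936 / 1024) with g9 | g9
  · exact blk8 a (by simpa using g8) (by simpa using g9) e he hi
  · exact blk9 a (by simpa using g9) (by simpa using h1) e he hi

lemma XF_zero (a : ℝ) (x ζ : ℂ) : XF 0 a x ζ = LN x (gk a (fun _ => 1)) := by
  funext z
  unfold XF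
  rw [Complex.ofReal_zero, zero_mul, add_zero]

lemma norm_l0e {e : ℂ} (he : ‖e‖ = 1) : ‖(l0 : ℂ) * e‖ < 1 := by
  rw [norm_mul, Complex.norm_real, Real.norm_eq_abs, abs_of_nonneg Aux.hl0, he, mul_one]
  exact Aux.hl1

theorem good_all {a : ℝ} (h0 : 0 ≤ a) (h1 : a ≤ 984 / 1024) {e : ℂ} (he : ‖e‖ = 1) :
    Good a e := by
  rcases le_total 0 e.im with hi | hi
  · exact good_up h0 h1 he hi
  · have g := good_up (e := conj e) h0 h1 (by rw [RCLike.norm_conj, he])
      (by rw [Complex.conj_im]; linarith)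
    unfold Good at g ⊢
    rw [XF_zero] at g ⊢
    have ha1 : a ≤ 1 := by linarith
    have h := NormAux.nr_conj (F := LN ((l0 : ℂ) * e) (gk a (fun _ => 1)))
      (G := LN ((l0 : ℂ) * conj e) (gk a (fun _ => 1)))
      (LN_diff (norm_l0e he) (gk_Sc h0 ha1 Sc_one)) (fun z _ => by
        unfold LN gk
        simp only [map_div₀, map_sub, map_mul, map_one, Complex.conj_conj, Complex.conj_ofReal]) r0
    rw [h]
    exact g

/-- The family check. -/
theorem hfam : ∀ a : ℝ, 0 ≤ a → a ≤ 1 - 40 / 1024 → ∀ η : ℂ, ‖η‖ = 1 →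
    maj (3672 / 10000) (GG (3672 / 10000) a η) (1 / (1 + 2 * (3672 / 10000))) ≤ 1 := by
  intro a h0 h1 η hη
  have el : (3672 / 10000 : ℝ) = l0 := by unfold l0; norm_num
  have er : (1 / (1 + 2 * (3672 / 10000)) : ℝ) = r0 := by unfold r0; norm_num
  rw [er, el]
  have ha1 : a < 1 := by linarith
  have hr0 := Aux.hr0
  have hr1 := Aux.hr1
  have hl1 := Aux.hl1
  have hlp : 0 < l0 := by unfold l0; norm_num
  have he : ‖-η‖ = 1 := by rw [norm_neg, hη]
  have g := good_all h0 (by linarith) he
  unfold Good at g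
  rw [XF_zero] at g
  have ex : (l0 : ℂ) * -η = -((l0 : ℂ) * η) := by ring
  rw [ex] at g
  have hx : ‖-((l0 : ℂ) * η)‖ < 1 := by rw [← ex]; exact norm_l0e he
  have hg := gk_Sc h0 ha1.le Sc_one
  rw [maj_GG hlp hl1 h0 ha1 hη Sc_one hr0 hr1]
  have hc : nr (LN (-((l0 : ℂ) * η)) (gk a (kh 1 (fun _ => 1)))) r0 =
      nr (LN (-((l0 : ℂ) * η)) (gk a (fun _ => 1))) r0 := by
    refine nr_congr (LN_diff hx hg) (fun z hz => ?_) r0
    unfold LN gk
    rw [kh_one Sc_one hz]
  unfold Ph
  rw [hc]
  have hq : (1 - l0 ^ 2) * (r0 * (2168 / 1709)) = 1 - l0 := by unfold l0 r0; norm_num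
  have hp : 0 ≤ 1 - l0 ^ 2 := by unfold l0; norm_num
  have t := mul_le_mul_of_nonneg_left (mul_le_mul_of_nonneg_left g hr0) hp
  linarith

end Pool.Agent.BCF
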