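import Pool.Agent.Lib.BCF.Chk
import Pool.Agent.Lib.BNR.IntX
import Pool.Agent.Lib.BNR.IntA2
import Pool.Agent.Lib.BNC.Cover
import Pool.Agent.Lib.P187w.Norm

/-!
# The family of explicit members at `l = 459 / 1250`: soundness of the checker
-/

set_option autoImplicit false

open Complex Metric Set
open scoped ComplexConjugate
open Pool.Agent.P187f6b Pool.Agent.P187w Pool.Agent.P187s Pool.Agent.BNR

namespace Pool.Agent.BCF

/-- The value of `l`. -/
noncomputable def l0 : ℝ := 459 / 1250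

/-- The radius `1 / (1 + 2 l)`. -/
noncomputable def r0 : ℝ := 625 / 1084

/-- The bound at a point of the grid. -/
def PTB (A : ℕ) (e : ℤ × ℤ) (b : ℕ) : Prop :=
  nr (XF 0 ((A : ℝ) / 1024) ((l0 : ℂ) * BNC.nd 1048576 e) 1) r0 ≤ (b : ℝ) / 2 ^ 40

namespace Aux

lemma cond_true' {x y : Bool} (h : cond x y false = true) : x = true ∧ y = true := by
  cases x
  · exact absurd h (by simp)
  · exact ⟨rfl, h⟩

lemma isub (a b : ℤ) : Int.sub a b = a - b := rfl
lemma iadd (a b : ℤ) : Int.add a b = a + b := rfl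
lemma imul (a b : ℤ) : Int.mul a b = a * b := rfl

/-- A Gaussian integer as a complex number. -/
noncomputable def gi (r i : ℤ) : ℂ := ⟨(r : ℝ), (i : ℝ)⟩

lemma gi_sq (r i : ℤ) : ‖gi r i‖ ^ 2 = (((r.natAbs * r.natAbs + i.natAbs * i.natAbs : ℕ)) : ℝ) := by
  rw [← Complex.normSq_eq_norm_sq, Complex.normSq_apply]
  simp only [gi]
  push_cast
  have h1 : ∀ m : ℤ, ((m.natAbs : ℝ)) * (m.natAbs : ℝ) = (m : ℝ) * m := by
    intro m
    rw [Nat.cast_natAbs, Int.cast_abs, abs_mul_abs_self]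
  rw [h1, h1]

theorem chkE_sound {Pr Pi Yr Yi : ℤ} {f : ℕ → ℂ}
    (hf : ∀ n, f (n + 2) = gi Pr Pi * f (n + 1) - gi Yr Yi * f n) :
    ∀ (ss : List ℕ) (n : ℕ) (er ei fr fi : ℤ) (den : ℕ), f n = gi er ei → f (n + 1) = gi fr fi →
      chkE Pr Pi Yr Yi ss er ei fr fi den = true →
      ∀ i (h : i < ss.length), ‖f (n + i)‖ ^ 2 * 2 ^ 60 ≤ (ss[i] : ℝ) ^ 2 * (den * (K2 : ℝ) ^ i) := by
  intro ss
  induction ss with
  | nil => intro n er ei fr fi den _ _ _ i h; simp at h
  | cons s ss ih =>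
    intro n er ei fr fi den h0 h1 hc i hi
    have hc' : cond (Nat.ble (Nat.mul (Nat.add (Nat.mul (Int.natAbs er) (Int.natAbs er))
          (Nat.mul (Int.natAbs ei) (Int.natAbs ei))) 1152921504606846976)
          (Nat.mul (Nat.mul s s) den))
        (chkE Pr Pi Yr Yi ss fr fi
          (Int.sub (Int.sub (Int.mul Pr fr) (Int.mul Pi fi)) (Int.sub (Int.mul Yr er) (Int.mul Yi ei)))
          (Int.sub (Int.add (Int.mul Pr fi) (Int.mul Pi fr)) (Int.add (Int.mul Yr ei) (Int.mul Yi er)))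
          (Nat.mul den K2)) false = true := hc
    obtain ⟨hc1, hc2⟩ := cond_true' hc'
    cases i with
    | zero =>
      have h2 := Nat.le_of_ble_eq_true hc1
      simp only [Nat.mul_eq, Nat.add_eq] at h2
      have h3 : (((er.natAbs * er.natAbs + ei.natAbs * ei.natAbs) * 1152921504606846976 : ℕ) : ℝ) ≤
          ((s * s * den : ℕ) : ℝ) := by exact_mod_cast h2
      rw [add_zero, h0, gi_sq, List.getElem_cons_zero, pow_zero, mul_one]
      push_cast at h3 ⊢
      nlinarith
    | succ i =>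
      have h4 := ih (n + 1) _ _ _ _ _ h1 (by
        rw [show n + 1 + 1 = n + 2 by ring, hf, h0, h1]
        apply Complex.ext
        · simp only [gi, sub_re, mul_re, isub, imul]
          push_cast
          ring
        · simp only [gi, sub_im, mul_im, isub, imul, iadd]
          push_cast
          ring) hc2 i (by simpa using hi)
      rw [show n + (i + 1) = n + 1 + i by ring, List.getElem_cons_succ]
      refine h4.trans (le_of_eq ?_)
      simp only [Nat.mul_eq]
      push_cast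
      ring

theorem dotN_eq : ∀ (ss rs : List ℕ), dotN ss rs = (List.zipWith (· * ·) ss rs).sum
  | [], rs => by cases rs <;> rfl
  | s :: ss, [] => rfl
  | s :: ss, r :: rs => by
    have h : dotN (s :: ss) (r :: rs) = Nat.add (Nat.mul s r) (dotN ss rs) := rfl
    rw [h, dotN_eq ss rs]
    simp

lemma sum_zip_le {g : ℕ → ℝ} : ∀ (ss rs : List ℕ) (n : ℕ), ss.length ≤ rs.length →
    (∀ i (h : i < ss.length) (h' : i < rs.length), g (n + i) ≤ (ss[i] : ℝ) * (rs[i] : ℝ)) →
    ∑ i ∈ Finset.range ss.length, g (n + i) ≤ (((List.zipWith (· * ·) ss rs).sum : ℕ) : ℝ)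
  | [], rs, n, _, _ => by simp
  | s :: ss, [], n, h, _ => by simp at h
  | s :: ss, r :: rs, n, h, hg => by
    have ih := sum_zip_le (g := g) ss rs (n + 1) (by simpa using h) (fun i h1 h2 => by
      have := hg (i + 1) (by simpa using h1) (by simpa using h2)
      rw [show n + 1 + i = n + (i + 1) by ring]
      simpa using this)
    have h0 := hg 0 (by simp) (by simp)
    rw [List.length_cons, Finset.sum_range_succ']
    have e : ∀ i ∈ Finset.range ss.length, g (n + (i + 1)) = g (n + 1 + i) :=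
      fun i _ => by rw [show n + (i + 1) = n + 1 + i by ring]
    rw [Finset.sum_congr rfl e]
    simp only [List.zipWith_cons_cons, List.sum_cons, Nat.cast_add, Nat.cast_mul]
    simp only [add_zero, List.getElem_cons_zero] at h0 ⊢
    linarith

lemma rho_le (i : ℕ) (h : i < rho.length) : r0 ^ i ≤ (rho[i] : ℝ) / 2 ^ 40 := by
  have hi : i < 28 := h
  unfold r0
  interval_cases i <;> simp only [rho, List.getElem_cons_succ, List.getElem_cons_zero] <;> norm_num

end Aux

open Aux

theorem ptOK_sound {A : ℕ} {e : ℤ × ℤ} {ss : List ℕ} {b : ℕ} (h : ptOK A e ss b = true) :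
    PTB A e b ∧ ‖BNC.nd 1048576 e‖ ≤ 1 ∧ A ≤ 1024 := by
  have h' : cond (Nat.ble (Nat.add (Nat.mul (Int.natAbs e.1) (Int.natAbs e.1))
        (Nat.mul (Int.natAbs e.2) (Int.natAbs e.2))) 1099511627776)
    (cond (Nat.ble A 1024) (cond (Nat.beq (List.length ss) 28)
    (cond (chkE (Int.mul (Int.ofNat A) (Int.add 1310720000 (Int.mul 459 e.1)))
        (Int.mul (Int.ofNat A) (Int.mul 459 e.2)) (Int.mul 1374389534720000 (Int.mul 459 e.1))
        (Int.mul 1374389534720000 (Int.mul 459 e.2)) ss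
        (Int.ofNat A) 0
        (Int.sub (Int.mul (Int.mul (Int.ofNat A) (Int.ofNat A))
          (Int.add 1310720000 (Int.mul 459 e.1))) 1374389534720000)
        (Int.mul (Int.mul (Int.ofNat A) (Int.ofNat A)) (Int.mul 459 e.2)) 1048576)
      (Nat.ble (Nat.add (dotN ss rho) tailN) (Nat.mul b 1073741824)) false) false) false) false =
      true := h
  obtain ⟨he, h'⟩ := cond_true' h'
  obtain ⟨hA, h'⟩ := cond_true' h'
  obtain ⟨hlen, h'⟩ := cond_true' h'
  obtain ⟨hchk, hsum⟩ := cond_true' h'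
  have hA : A ≤ 1024 := Nat.le_of_ble_eq_true hA
  have hlen : ss.length = 28 := Nat.eq_of_beq_eq_true hlen
  have hAr : (A : ℝ) ≤ 1024 := by exact_mod_cast hA
  have ha0 : 0 ≤ (A : ℝ) / 1024 := by positivity
  have ha1 : (A : ℝ) / 1024 ≤ 1 := by linarith
  -- the direction
  have hnd : BNC.nd 1048576 e = gi e.1 e.2 / 1048576 := by
    apply Complex.ext
    · simp [BNC.nd, gi]
    · simp [BNC.nd, gi]
  have hen : ‖BNC.nd 1048576 e‖ ≤ 1 := by
    have h1 := Nat.le_of_ble_eq_true he
    simp only [Nat.mul_eq, Nat.add_eq] at h1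
    have h2 : ‖gi e.1 e.2‖ ^ 2 ≤ 1048576 ^ 2 := by
      rw [gi_sq]
      have : (((e.1.natAbs * e.1.natAbs + e.2.natAbs * e.2.natAbs : ℕ)) : ℝ) ≤
          ((1099511627776 : ℕ) : ℝ) := by exact_mod_cast h1
      refine this.trans (by norm_num)
    have h3 : ‖gi e.1 e.2‖ ≤ 1048576 := le_of_sq_le_sq h2 (by norm_num)
    rw [hnd, norm_div]
    have : ‖(1048576 : ℂ)‖ = 1048576 := by
      rw [show (1048576 : ℂ) = ((1048576 : ℝ) : ℂ) by norm_num, Complex.norm_real]
      norm_num
    rw [this, div_le_one (by norm_num)]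
    exact h3
  refine ⟨?_, hen, hA⟩
  set a : ℝ := (A : ℝ) / 1024 with ha
  set x : ℂ := (l0 : ℂ) * BNC.nd 1048576 e with hx
  have hl0 : (0 : ℝ) ≤ l0 := by unfold l0; norm_num
  have hl1 : l0 < 1 := by unfold l0; norm_num
  have hxl : ‖x‖ ≤ l0 := by
    rw [hx, norm_mul, Complex.norm_real, Real.norm_eq_abs, abs_of_nonneg hl0]
    exact mul_le_of_le_one_right hl0 hen
  have hx1 : ‖x‖ < 1 := lt_of_le_of_lt hxl hl1
  have hr0 : (0 : ℝ) ≤ r0 := by unfold r0; norm_num
  have hr1 : r0 < 1 := by unfold r0; norm_num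
  -- the scaled sequence
  have hxX : x * 1310720000 = gi (459 * e.1) (459 * e.2) := by
    rw [hx, hnd]
    have : (l0 : ℂ) = 459 / 1250 := by unfold l0; push_cast; ring
    rw [this]
    apply Complex.ext
    · simp [gi]; ring
    · simp [gi]; ring
  have haA : (a : ℂ) * 1024 = (A : ℂ) := by
    rw [ha]; push_cast; ring
  have giR : ∀ (m : ℤ), gi m 0 = (m : ℂ) := by
    intro m
    apply Complex.ext
    · simp [gi]
    · simp [gi]
  have hPc : gi (Int.mul (Int.ofNat A) (Int.add 1310720000 (Int.mul 459 e.1)))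
      (Int.mul (Int.ofNat A) (Int.mul 459 e.2)) = (A : ℂ) * (1310720000 + x * 1310720000) := by
    rw [hxX]
    apply Complex.ext
    · simp only [gi, imul, iadd, Int.ofNat_eq_natCast, mul_re, add_re, natCast_re,
        natCast_im, zero_mul, sub_zero, re_ofNat]
      push_cast
      ring
    · simp only [gi, imul, iadd, Int.ofNat_eq_natCast, mul_im, add_im, natCast_re,
        natCast_im, zero_mul, add_zero, im_ofNat, zero_add]
      push_cast
      ring
  have hYc : gi (Int.mul 1374389534720000 (Int.mul 459 e.1))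
      (Int.mul 1374389534720000 (Int.mul 459 e.2)) = 1374389534720000 * (x * 1310720000) := by
    rw [hxX]
    apply Complex.ext
    · simp only [gi, imul, mul_re, re_ofNat, im_ofNat, zero_mul, sub_zero]
      push_cast
      ring
    · simp only [gi, imul, mul_im, re_ofNat, im_ofNat, zero_mul, add_zero]
      push_cast
      ring
  set D : ℂ := 1342177280000 with hD
  set f : ℕ → ℂ := fun n => el a x n * D ^ n * 1024 with hf
  have hrec : ∀ n, f (n + 2) =
      gi (Int.mul (Int.ofNat A) (Int.add 1310720000 (Int.mul 459 e.1)))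
        (Int.mul (Int.ofNat A) (Int.mul 459 e.2)) * f (n + 1) -
      gi (Int.mul 1374389534720000 (Int.mul 459 e.1))
        (Int.mul 1374389534720000 (Int.mul 459 e.2)) * f n := by
    intro n
    rw [hPc, hYc, ← haA]
    simp only [hf, el, hD]
    ring
  have hf0 : f 0 = gi (Int.ofNat A) 0 := by
    rw [giR]
    simp only [hf, el, pow_zero, mul_one, Int.ofNat_eq_natCast, Int.cast_natCast]
    exact haA
  have hf1 : f 1 = gi (Int.sub (Int.mul (Int.mul (Int.ofNat A) (Int.ofNat A))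
          (Int.add 1310720000 (Int.mul 459 e.1))) 1374389534720000)
        (Int.mul (Int.mul (Int.ofNat A) (Int.ofNat A)) (Int.mul 459 e.2)) := by
    have h1 : gi (Int.sub (Int.mul (Int.mul (Int.ofNat A) (Int.ofNat A))
          (Int.add 1310720000 (Int.mul 459 e.1))) 1374389534720000)
        (Int.mul (Int.mul (Int.ofNat A) (Int.ofNat A)) (Int.mul 459 e.2)) =
        (A : ℂ) * (A : ℂ) * (1310720000 + x * 1310720000) - 1374389534720000 := by
      rw [hxX]
      apply Complex.ext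
      · simp only [gi, imul, iadd, isub, Int.ofNat_eq_natCast, mul_re, add_re,
          sub_re, natCast_re, natCast_im, zero_mul, mul_zero, sub_zero, re_ofNat, mul_im, add_zero]
        push_cast
        ring
      · simp only [gi, imul, iadd, isub, Int.ofNat_eq_natCast, mul_re, add_re,
          sub_im, natCast_re, natCast_im, zero_mul, mul_zero, sub_zero, im_ofNat, mul_im, add_im,
          add_zero, zero_add]
        push_cast
        ring
    rw [h1, ← haA]
    simp only [hf, el, hD, pow_one]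
    ring
  have hall := chkE_sound hrec ss 0 _ _ _ _ _ hf0 hf1 hchk
  -- the coefficients
  have hcoef : ∀ i (h : i < ss.length), ‖el a x i‖ ≤ (ss[i] : ℝ) / 2 ^ 30 := by
    intro i hi
    have h1 := hall i hi
    rw [zero_add] at h1
    have hDn : ‖D‖ = 1342177280000 := by
      rw [hD, show (1342177280000 : ℂ) = ((1342177280000 : ℝ) : ℂ) by norm_num, Complex.norm_real]
      norm_num
    have h1024 : ‖(1024 : ℂ)‖ = 1024 := by
      rw [show (1024 : ℂ) = ((1024 : ℝ) : ℂ) by norm_num, Complex.norm_real]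
      norm_num
    have h2 : ‖f i‖ = ‖el a x i‖ * 1342177280000 ^ i * 1024 := by
      simp only [hf]
      rw [norm_mul, norm_mul, norm_pow, hDn, h1024]
    have h3 : ((1048576 : ℕ) : ℝ) * (K2 : ℝ) ^ i = (1342177280000 ^ i * 1024) ^ 2 := by
      have : (K2 : ℝ) = 1342177280000 ^ 2 := by unfold K2; norm_num
      rw [this, mul_pow, ← pow_mul, ← pow_mul, mul_comm 2 i]
      norm_num
      ring
    rw [h2, h3] at h1
    have h4 : 0 < (1342177280000 ^ i * 1024 : ℝ) ^ 2 := by positivity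
    have h5 : ‖el a x i‖ ^ 2 * 2 ^ 60 ≤ (ss[i] : ℝ) ^ 2 := by
      have e1 : (‖el a x i‖ * 1342177280000 ^ i * 1024) ^ 2 * 2 ^ 60 =
          (‖el a x i‖ ^ 2 * 2 ^ 60) * (1342177280000 ^ i * 1024) ^ 2 := by ring
      rw [e1] at h1
      exact le_of_mul_le_mul_right h1 h4
    rw [le_div_iff₀ (by positivity)]
    refine le_of_sq_le_sq ?_ (by positivity)
    calc (‖el a x i‖ * 2 ^ 30) ^ 2 = ‖el a x i‖ ^ 2 * 2 ^ 60 := by ring
      _ ≤ _ := h5
  -- the sum
  have hrl : rho.length = 28 := rfl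
  have hS : ∑ n ∈ Finset.range 28, ‖el a x n‖ * r0 ^ n ≤ (dotN ss rho : ℝ) / 2 ^ 70 := by
    have h1 := sum_zip_le (g := fun n => ‖el a x n‖ * r0 ^ n * 2 ^ 70) ss rho 0
      (by rw [hlen, hrl]) (fun i h1 h2 => by
        have g1 := hcoef i h1
        have g2 := rho_le i h2
        rw [zero_add]
        have g3 : ‖el a x i‖ * r0 ^ i ≤ (ss[i] : ℝ) / 2 ^ 30 * ((rho[i] : ℝ) / 2 ^ 40) :=
          mul_le_mul g1 g2 (pow_nonneg hr0 _) (by positivity)
        calc ‖el a x i‖ * r0 ^ i * 2 ^ 70 ≤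
            (ss[i] : ℝ) / 2 ^ 30 * ((rho[i] : ℝ) / 2 ^ 40) * 2 ^ 70 :=
              mul_le_mul_of_nonneg_right g3 (by positivity)
          _ = _ := by ring)
    rw [hlen, ← dotN_eq] at h1
    simp only [zero_add] at h1
    rw [← Finset.sum_mul] at h1
    rw [le_div_iff₀ (by positivity)]
    exact h1
  have htail : ∀ J, ∑ j ∈ Finset.range J, ‖el a x (28 + j)‖ * r0 ^ (28 + j) ≤
      (tailN : ℝ) / 2 ^ 70 := by
    intro J
    refine (SeqAux.el_tail hxl hl1 ha0 ha1 hr0 hr1 28 J).trans ?_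
    rw [div_le_iff₀ (by unfold l0 r0; positivity)]
    have h1 : (0 : ℝ) ≤ (tailN : ℝ) / 2 ^ 70 := by positivity
    have h2 : r0 ^ 28 / ((tailN : ℝ) / 2 ^ 70) ≤ √((1 - l0 ^ 2) * (1 - r0 ^ 2)) := by
      refine Real.le_sqrt_of_sq_le ?_
      unfold l0 r0 tailN
      norm_num
    have h3 : (0 : ℝ) < (tailN : ℝ) / 2 ^ 70 := by unfold tailN; norm_num
    rw [div_le_iff₀ h3] at h2
    linarith
  have hb : (dotN ss rho : ℝ) / 2 ^ 70 + (tailN : ℝ) / 2 ^ 70 ≤ (b : ℝ) / 2 ^ 40 := by
    have h1 := Nat.le_of_ble_eq_true hsum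
    simp only [Nat.mul_eq, Nat.add_eq] at h1
    have h2 : ((dotN ss rho + tailN : ℕ) : ℝ) ≤ ((b * 1073741824 : ℕ) : ℝ) := by exact_mod_cast h1
    push_cast at h2
    rw [← add_div, div_le_div_iff₀ (by positivity) (by positivity)]
    nlinarith
  refine nr_XF_le hx1 ha0 ha1 (by simp) 0 hr0 (fun N => ?_)
  have e0 : ∀ n, ‖el a x n + ((0 : ℝ) : ℂ) * yy a x 1 n‖ = ‖el a x n‖ := by
    intro n
    simp
  simp only [e0]
  have h1 : ∑ n ∈ Finset.range N, ‖el a x n‖ * r0 ^ n ≤
      ∑ n ∈ Finset.range (28 + N), ‖el a x n‖ * r0 ^ n :=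
    Finset.sum_le_sum_of_subset_of_nonneg (Finset.range_subset_range.2 (Nat.le_add_left _ _))
      (fun n _ _ => mul_nonneg (norm_nonneg _) (pow_nonneg hr0 _))
  rw [Finset.sum_range_add] at h1
  have h2 := htail N
  linarith

end Pool.Agent.BCF
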