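import Pool.Agent.Lib.BCF.Cell

/-!
# The family of explicit members at `l = 459 / 1250`: rows, strips and blocks
-/

set_option autoImplicit false

open Complex Metric Set
open Pool.Agent.P187f6b Pool.Agent.P187w Pool.Agent.P187s Pool.Agent.BNR

namespace Pool.Agent.BCF

/-- The bound at a point and the norm of the direction. -/
def PE (A : ℕ) (e : ℤ × ℤ) (b : ℕ) : Prop := PTB A e b ∧ ‖BNC.nd 1048576 e‖ ≤ 1

/-- All points of a row. -/
def RowP (A : ℕ) (es : List (ℤ × ℤ)) (bs : List ℕ) : Prop := List.Forall₂ (PE A) es bs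

theorem rowOK_sound {A : ℕ} : ∀ {es : List (ℤ × ℤ)} {sss : List (List ℕ)} {bs : List ℕ},
    rowOK A es sss bs = true → RowP A es bs := by
  intro es
  induction es with
  | nil =>
    intro sss bs h
    rcases bs with _ | ⟨b, bs⟩
    · exact List.Forall₂.nil
    · exact absurd (show false = true from h) (by decide)
  | cons e es ih =>
    intro sss bs h
    rcases sss with _ | ⟨ss, sss⟩
    · exact absurd (show false = true from h) (by decide)
    · rcases bs with _ | ⟨b, bs⟩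
      · exact absurd (show false = true from h) (by decide)
      · have h' : cond (ptOK A e ss b) (rowOK A es sss bs) false = true := h
        obtain ⟨h1, h2⟩ := Aux.cond_true' h'
        obtain ⟨g1, g2, g3⟩ := ptOK_sound h1
        exact List.Forall₂.cons ⟨g1, g2⟩ (ih h2)

lemma cap_real {p q : ℤ × ℤ} {k : ℕ} {x : ℤ × ℤ}
    (h : (1099511627776 - (k : ℤ)) * (1099511627776 - (k : ℤ)) +
        274877906944 * ((p.1 - q.1) * (p.1 - q.1) + (p.2 - q.2) * (p.2 - q.2)) ≤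
      1099511627776 * (x.1 * x.1 + x.2 * x.2)) :
    (1 - (k : ℝ) / 2 ^ 40) ^ 2 ≤ ‖BNC.nd 1048576 x‖ ^ 2 -
      ‖BNC.nd 1048576 p - BNC.nd 1048576 q‖ ^ 2 / 4 := by
  have h' : (((1099511627776 - (k : ℤ)) * (1099511627776 - (k : ℤ)) +
        274877906944 * ((p.1 - q.1) * (p.1 - q.1) + (p.2 - q.2) * (p.2 - q.2)) : ℤ) : ℝ) ≤
      ((1099511627776 * (x.1 * x.1 + x.2 * x.2) : ℤ) : ℝ) := by exact_mod_cast h
  push_cast at h'
  have e1 : ‖BNC.nd 1048576 x‖ ^ 2 = ((x.1 : ℝ) * x.1 + (x.2 : ℝ) * x.2) / 2 ^ 40 := by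
    rw [← normSq_eq_norm_sq, normSq_apply]
    simp only [BNC.nd]
    push_cast
    ring
  have e2 : ‖BNC.nd 1048576 p - BNC.nd 1048576 q‖ ^ 2 =
      (((p.1 : ℝ) - q.1) * (p.1 - q.1) + ((p.2 : ℝ) - q.2) * (p.2 - q.2)) / 2 ^ 40 := by
    rw [← normSq_eq_norm_sq, normSq_apply]
    simp only [BNC.nd, sub_re, sub_im]
    push_cast
    ring
  rw [e1, e2]
  have e3 : (1 - (k : ℝ) / 2 ^ 40) ^ 2 = (1099511627776 - (k : ℝ)) * (1099511627776 - (k : ℝ)) /
      2 ^ 80 := by ring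
  have e4 : ((x.1 : ℝ) * x.1 + (x.2 : ℝ) * x.2) / 2 ^ 40 -
      (((p.1 : ℝ) - q.1) * (p.1 - q.1) + ((p.2 : ℝ) - q.2) * (p.2 - q.2)) / 2 ^ 40 / 4 =
      (1099511627776 * ((x.1 : ℝ) * x.1 + (x.2 : ℝ) * x.2) - 274877906944 *
        (((p.1 : ℝ) - q.1) * (p.1 - q.1) + ((p.2 : ℝ) - q.2) * (p.2 - q.2))) / 2 ^ 80 := by ring
  rw [e3, e4]
  exact div_le_div_of_nonneg_right (by linarith) (by positivity)

/-- The conclusion at one point. -/
def Good (a : ℝ) (e : ℂ) : Prop := nr (XF 0 a ((l0 : ℂ) * e) 1) r0 ≤ 2168 / 1709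

theorem strip_sound {A1 A2 Q w : ℕ} (hA : A1 < A2) (hA2 : A2 < 1024) (hQ : 1073741824 ≤ Q)
    (hQc : 390625 * (A2 * A2 * 1351819 + 210681 * 1048576) * 1152921504606846976 ≤
      (Q - 1073741824) * (Q - 1073741824) * (1048576 - A2 * A2) * 784431 * 1351819)
    (hw : w = (A2 - A1) * (A2 - A1) * 1683946 * (Q * Q)) {a : ℝ}
    (ha1 : (A1 : ℝ) / 1024 ≤ a) (ha2 : a ≤ (A2 : ℝ) / 1024) :
    ∀ (es : List (ℤ × ℤ)) (ks r1 r2 : List ℕ), capOK es ks = true → stripOK w ks r1 r2 = true →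
      RowP A1 es r1 → RowP A2 es r2 → ∀ x ∈ es.zip es.tail, ∀ u S : ℝ, 0 ≤ u → u ≤ 1 → 1 ≤ S →
        ‖(S : ℂ) * ((1 - (u : ℂ)) * BNC.nd 1048576 x.1 + (u : ℂ) * BNC.nd 1048576 x.2)‖ = 1 →
        Good a ((S : ℂ) * ((1 - (u : ℂ)) * BNC.nd 1048576 x.1 + (u : ℂ) * BNC.nd 1048576 x.2)) := by
  intro es
  induction es with
  | nil =>
    intro ks r1 r2 _ _ _ _ x hx
    simp at hx
  | cons e1 es ih =>
    intro ks r1 r2 hcap hst h1 h2 x hx u S hu0 hu1 hS hn
    rcases es with _ | ⟨e2, es⟩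
    · simp at hx
    · rcases ks with _ | ⟨k, ks⟩
      · simp [capOK] at hcap
      · unfold RowP at h1 h2
        obtain ⟨b, r1', p1, q1, rfl⟩ := List.forall₂_cons_left_iff.1 h1
        obtain ⟨b', r1'', p1', q1', rfl⟩ := List.forall₂_cons_left_iff.1 q1
        obtain ⟨c, r2', p2, q2, rfl⟩ := List.forall₂_cons_left_iff.1 h2
        obtain ⟨c', r2'', p2', q2', rfl⟩ := List.forall₂_cons_left_iff.1 q2
        simp only [capOK, Bool.and_eq_true, decide_eq_true_eq] at hcap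
        simp only [stripOK, Bool.and_eq_true] at hst
        obtain ⟨⟨⟨hk, k1⟩, k2⟩, hcap'⟩ := hcap
        obtain ⟨⟨⟨⟨s1, s2⟩, s3⟩, s4⟩, hst'⟩ := hst
        rw [List.tail_cons, List.zip_cons_cons, List.mem_cons] at hx
        rcases hx with rfl | hx
        · exact cell hA hA2 hQ hQc hw p1.2 p1'.2 hk (cap_real k1) (cap_real k2) p1.1 p1'.1 p2.1
            p2'.1 s1 s2 s3 s4 ha1 ha2 hu0 hu1 hS hn
        · exact ih ks (b' :: r1'') (c' :: r2'') hcap' hst' q1 q2 x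
            (by rw [List.tail_cons]; exact hx) u S hu0 hu1 hS hn

theorem strips_sound {es : List (ℤ × ℤ)} {ks : List ℕ} (hcov : BNC.covB 1048576 es = true)
    (hcap : capOK es ks = true) : ∀ (As Qs : List ℕ) (rows : List (List ℕ)),
    stripsOK ks As Qs rows = true → List.Forall₂ (fun A bs => RowP A es bs) As rows →
    ∀ x ∈ As.zip As.tail, ∀ a : ℝ, (x.1 : ℝ) / 1024 ≤ a → a ≤ (x.2 : ℝ) / 1024 →
      ∀ e : ℂ, ‖e‖ = 1 → 0 ≤ e.im → Good a e := by
  intro As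
  induction As with
  | nil =>
    intro Qs rows _ _ x hx
    simp at hx
  | cons A1 As ih =>
    intro Qs rows hst hr x hx a ha1 ha2
    rcases As with _ | ⟨A2, As⟩
    · simp at hx
    · obtain ⟨r1, rs, p1, q1, rfl⟩ := List.forall₂_cons_left_iff.1 hr
      obtain ⟨r2, rs', p2, q2, rfl⟩ := List.forall₂_cons_left_iff.1 q1
      rcases Qs with _ | ⟨Q, Qs⟩
      · simp [stripsOK] at hst
      · simp only [stripsOK, Bool.and_eq_true, decide_eq_true_eq] at hst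
        obtain ⟨⟨⟨⟨⟨c1, c2⟩, c3⟩, c4⟩, c5⟩, hst'⟩ := hst
        rw [List.tail_cons, List.zip_cons_cons, List.mem_cons] at hx
        rcases hx with rfl | hx
        · exact BNC.cover_ind hcov (strip_sound c1 c2 c3 c4 rfl ha1 ha2 es ks r1 r2 hcap c5 p1 p2)
        · exact ih Qs (r2 :: rs') hst' q1 x (by rw [List.tail_cons]; exact hx) a ha1 ha2

/-- A block. -/
theorem block_sound {es : List (ℤ × ℤ)} {ks : List ℕ} (hcov : BNC.covB 1048576 es = true)
    (hcap : capOK es ks = true) {A0 : ℕ} {As Qs : List ℕ} {rows : List (List ℕ)}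
    (hst : stripsOK ks (A0 :: As) Qs rows = true)
    (hr : List.Forall₂ (fun A bs => RowP A es bs) (A0 :: As) rows) {A' : ℕ}
    (hl : (A0 :: As).getLast (by simp) = A') (hne : As ≠ []) :
    ∀ a : ℝ, (A0 : ℝ) / 1024 ≤ a → a ≤ (A' : ℝ) / 1024 →
      ∀ e : ℂ, ‖e‖ = 1 → 0 ≤ e.im → Good a e := by
  have h := BNC.strip_ind (M := 1024) (P := fun a => ∀ e : ℂ, ‖e‖ = 1 → 0 ≤ e.im → Good a e) As A0
    (fun x hx a h1 h2 => strips_sound hcov hcap (A0 :: As) Qs rows hst hr x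
      (by rw [List.tail_cons]; exact hx) a (by simpa using h1) (by simpa using h2)) hne
  intro a h1 h2
  refine h a (by simpa using h1) ?_
  rw [hl]
  simpa using h2

end Pool.Agent.BCF
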